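import Pool.Agent.H21MC.Final

set_option autoImplicit false
open Complex Filter Topology Set Metric MeasureTheory
open Pool.Agent.H21MC

namespace Pool.Agent.Results.MP_16b0ee_an.OneSixteenth

/-- complex integral means of `ψ'` -/
theorem moments {κ : ℝ} (hκ : 4 < κ) {R : ℝ} (hR1 : 1 < R) (hR : R ≤ κ / 4) {ψ h : ℂ → ℂ}
    (hψd : DifferentiableOn ℂ ψ {z : ℂ | 1 < ‖z‖}) (hψi : Set.InjOn ψ {z : ℂ | 1 < ‖z‖})
    (hhd : DifferentiableOn ℂ h {z : ℂ | 1 < ‖z‖})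
    (hexp : ∀ z : ℂ, 1 < ‖z‖ → Complex.exp (h z) = deriv ψ z)
    (hh0 : Filter.Tendsto h (Bornology.cobounded ℂ) (nhds 0)) (t : ℂ) :
    (1 / (2 * Real.pi)) * ∫ θ in (0:ℝ)..(2 * Real.pi),
        ‖Complex.exp (t * h ((R : ℂ) * Complex.exp ((θ : ℂ) * Complex.I)))‖ ≤
      (1 + 3 / (1 - 4 / κ)) * Real.exp (3 / (1 - 4 / κ) * ‖t‖) *
        (R / (R - 1)) ^ (κ * ‖t‖ ^ 2) := by
  have hR0 : 0 < R := by linarith
  have hg := gg_cl hψd hψi hhd hexp hh0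
  have hs : -Real.log R < 0 := by
    have := Real.log_pos hR1
    linarith
  have hes : Real.exp (-Real.log R) = R⁻¹ := by rw [Real.exp_neg, Real.exp_log hR0]
  have h1 := mean_le hg hκ t hs (by
    rw [hes, ← div_eq_mul_inv, le_div_iff₀ hR0]
    linarith)
  have h2 := intervalIntegral.integral_comp_sub_left (a := 0) (b := 2 * Real.pi)
    (fun θ : ℝ => Real.exp (kk (gg h) t (pz (-Real.log R) θ)).re) (2 * Real.pi)
  rw [sub_self, sub_zero] at h2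
  have h3 : ∫ θ in (0:ℝ)..(2 * Real.pi),
      ‖Complex.exp (t * h ((R : ℂ) * Complex.exp ((θ : ℂ) * Complex.I)))‖ =
      MI (gg h) t (-Real.log R) := by
    unfold MI
    rw [← h2]
    apply intervalIntegral.integral_congr
    intro θ _
    simp only
    unfold kk
    rw [gg_val h hR0 θ, Complex.norm_exp]
  rw [h3]
  have hb : 0 < R - 1 := by linarith
  have h4 : Real.exp (-(κ * ‖t‖ ^ 2) * Real.log (1 - Real.exp (-Real.log R))) =
      (R / (R - 1)) ^ (κ * ‖t‖ ^ 2) := by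
    have e1 : 1 - Real.exp (-Real.log R) = (R / (R - 1))⁻¹ := by
      rw [hes, inv_div]
      field_simp
    rw [e1, Real.log_inv, Real.rpow_def_of_pos (by positivity)]
    congr 1
    ring
  unfold JJ at h1
  rw [h4] at h1
  have hpi := Real.pi_pos
  have h5 := mul_le_mul_of_nonneg_left h1 (show (0:ℝ) ≤ 1 / (2 * Real.pi) by positivity)
  refine h5.trans (le_of_eq ?_)
  field_simp

/-- The assertion of Q1 holds for every `a < 1/16`; and all complex integral means of `ψ'`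
satisfy a uniform Gaussian-type bound with constant `κ > 4` arbitrary. -/
theorem result :
    (∀ a : ℝ, 0 < a → a < 1 / 16 → ∃ C : ℝ, ∃ R₀ : ℝ, 1 < R₀ ∧
      ∀ R : ℝ, 1 < R → R < R₀ →
      ∀ ψ h : ℂ → ℂ,
        DifferentiableOn ℂ ψ {z : ℂ | 1 < ‖z‖} →
        Set.InjOn ψ {z : ℂ | 1 < ‖z‖} →
        (∃ b : ℂ, Filter.Tendsto (fun z => ψ z - z) (Bornology.cobounded ℂ) (nhds b)) →
        DifferentiableOn ℂ h {z : ℂ | 1 < ‖z‖} →
        (∀ z : ℂ, 1 < ‖z‖ → Complex.exp (h z) = deriv ψ z) →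
        Filter.Tendsto h (Bornology.cobounded ℂ) (nhds 0) →
        (1 / (2 * Real.pi)) * ∫ θ in (0:ℝ)..(2 * Real.pi),
          Real.exp (a * ‖h ((R : ℂ) * Complex.exp ((θ : ℂ) * Complex.I))‖ ^ 2
            / Real.log (R ^ 2 / (R ^ 2 - 1))) ≤ C) ∧
    (∀ κ : ℝ, 4 < κ → ∀ R : ℝ, 1 < R → R ≤ κ / 4 →
      ∀ ψ h : ℂ → ℂ,
        DifferentiableOn ℂ ψ {z : ℂ | 1 < ‖z‖} →
        Set.InjOn ψ {z : ℂ | 1 < ‖z‖} →
        (∃ b : ℂ, Filter.Tendsto (fun z => ψ z - z) (Bornology.cobounded ℂ) (nhds b)) →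
        DifferentiableOn ℂ h {z : ℂ | 1 < ‖z‖} →
        (∀ z : ℂ, 1 < ‖z‖ → Complex.exp (h z) = deriv ψ z) →
        Filter.Tendsto h (Bornology.cobounded ℂ) (nhds 0) →
        ∀ t : ℂ,
        (1 / (2 * Real.pi)) * ∫ θ in (0:ℝ)..(2 * Real.pi),
          ‖Complex.exp (t * h ((R : ℂ) * Complex.exp ((θ : ℂ) * Complex.I)))‖ ≤
        (1 + 3 / (1 - 4 / κ)) * Real.exp (3 / (1 - 4 / κ) * ‖t‖) *
          (R / (R - 1)) ^ (κ * ‖t‖ ^ 2)) := by
  refine ⟨?_, ?_⟩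
  · intro a ha0 ha
    obtain ⟨C, R₀, hR₀, hm⟩ := marshall a ha0 ha
    exact ⟨C, R₀, hR₀, fun R hR1 hR ψ h hψd hψi _ hhd hexp hh0 =>
      hm R hR1 hR ψ h hψd hψi hhd hexp hh0⟩
  · intro κ hκ R hR1 hR ψ h hψd hψi _ hhd hexp hh0 t
    exact moments hκ hR1 hR hψd hψi hhd hexp hh0 t

end Pool.Agent.Results.MP_16b0ee_an.OneSixteenth
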